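import Mathlib

open Matrix

namespace Pool.Agent.Results.MP_c32163_co.EOptimalFails

/-- A block design in `𝒟(v,b,k)`: `b` blocks, each a multiset of `k` of the treatments. -/
structure Design (v b k : ℕ) where
  block : Fin b → Multiset (Fin v)
  card_block : ∀ B, (block B).card = k

namespace Design

variable {v b k : ℕ}

/-- multiplicity `n_{iB}` -/
def mult (D : Design v b k) (i : Fin v) (B : Fin b) : ℕ := (D.block B).count i

/-- replication `r_i` -/
def repl (D : Design v b k) (i : Fin v) : ℕ := ∑ B, D.mult i B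

/-- concurrence `λ_{ij}` -/
def conc (D : Design v b k) (i j : Fin v) : ℕ := ∑ B, D.mult i B * D.mult j B

/-- the treatment-block incidence matrix `N` -/
def inc (D : Design v b k) : Matrix (Fin v) (Fin b) ℝ := Matrix.of fun i B => (D.mult i B : ℝ)

/-- the information matrix `C = R - k⁻¹ N Nᵀ` -/
noncomputable def info (D : Design v b k) : Matrix (Fin v) (Fin v) ℝ :=
  Matrix.diagonal (fun i => (D.repl i : ℝ)) - (k : ℝ)⁻¹ • (D.inc * D.incᵀ)

/-- the simple graph underlying the concurrence graph -/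
def concGraph (D : Design v b k) : SimpleGraph (Fin v) :=
  SimpleGraph.fromRel fun i j => 0 < D.conc i j

/-- the design is connected -/
def Connected (D : Design v b k) : Prop := D.concGraph.Connected

/-- `t` is a non-trivial eigenvalue of the information matrix (an eigenvalue with an eigenvector
orthogonal to the all-one vector) -/
def NontrivialEigenvalue (D : Design v b k) (t : ℝ) : Prop :=
  ∃ x : Fin v → ℝ, x ≠ 0 ∧ ∑ i, x i = 0 ∧ D.info *ᵥ x = t • x

/-- `θ₁`, the smallest non-trivial eigenvalue -/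
noncomputable def theta1 (D : Design v b k) : ℝ := sInf {t | D.NontrivialEigenvalue t}

/-- E-optimality in `𝒟(v,b,k)` -/
def EOptimal (D : Design v b k) : Prop :=
  D.Connected ∧ ∀ D' : Design v b k, D'.Connected → D'.theta1 ≤ D.theta1

/-- `V_{ij}` computed with the generalised inverse `G` of the information matrix -/
def pairVar (G : Matrix (Fin v) (Fin v) ℝ) (i j : Fin v) : ℝ :=
  (Pi.single i 1 - Pi.single j 1) ⬝ᵥ (G *ᵥ (Pi.single i 1 - Pi.single j 1))

lemma info_quad (D : Design v b k) (x : Fin v → ℝ) :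
    x ⬝ᵥ (D.info *ᵥ x) = ∑ B, (∑ i, (D.mult i B : ℝ) * x i ^ 2
      - (k : ℝ)⁻¹ * (∑ i, (D.mult i B : ℝ) * x i) ^ 2) := by
  have h1 : x ⬝ᵥ (Matrix.diagonal (fun i => (D.repl i : ℝ)) *ᵥ x) =
      ∑ B, ∑ i, (D.mult i B : ℝ) * x i ^ 2 := by
    rw [Finset.sum_comm]
    simp only [dotProduct, Matrix.mulVec_diagonal, repl]
    refine Finset.sum_congr rfl fun i _ => ?_
    push_cast
    rw [Finset.sum_mul, Finset.mul_sum]
    exact Finset.sum_congr rfl fun B _ => by ring
  have h2 : x ⬝ᵥ ((D.inc * D.incᵀ) *ᵥ x) = ∑ B, (∑ i, (D.mult i B : ℝ) * x i) ^ 2 := by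
    rw [← Matrix.mulVec_mulVec, Matrix.dotProduct_mulVec, Matrix.mulVec_transpose]
    simp only [dotProduct, Matrix.vecMul, inc, Matrix.of_apply]
    refine Finset.sum_congr rfl fun B _ => ?_
    rw [sq]
    simp only [mul_comm]
  rw [info, Matrix.sub_mulVec, dotProduct_sub, Matrix.smul_mulVec, dotProduct_smul, h1, h2,
    Finset.sum_sub_distrib, smul_eq_mul, Finset.mul_sum]

/-- for blocks of size two the quadratic form is half the sum of the squared differences -/
lemma quad_two (D : Design v b 2) (p q : Fin b → Fin v) (h : ∀ B, D.block B = {p B, q B})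
    (x : Fin v → ℝ) : x ⬝ᵥ (D.info *ᵥ x) = ∑ B, (x (p B) - x (q B)) ^ 2 / 2 := by
  rw [info_quad]
  refine Finset.sum_congr rfl fun B _ => ?_
  have hc : ∀ f : Fin v → ℝ, ∑ i, (D.mult i B : ℝ) * f i = f (p B) + f (q B) := by
    intro f
    have : ∀ i, (D.mult i B : ℝ) * f i = (if i = p B then f i else 0) +
        (if i = q B then f i else 0) := by
      intro i
      rw [mult, h, Multiset.insert_eq_cons, Multiset.count_cons, Multiset.count_singleton]
      split_ifs <;> push_cast <;> ring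
    simp only [this, Finset.sum_add_distrib, Finset.sum_ite_eq', Finset.mem_univ, if_true]
  rw [hc (fun i => x i ^ 2), hc]
  push_cast
  ring

lemma info_symm (D : Design v b k) : D.info.IsSymm := by
  unfold info Matrix.IsSymm
  rw [Matrix.transpose_sub, Matrix.transpose_smul, Matrix.transpose_mul,
    Matrix.transpose_transpose, Matrix.diagonal_transpose]

lemma exists_pq (D : Design v b 2) : ∃ p q : Fin b → Fin v, ∀ B, D.block B = {p B, q B} := by
  have : ∀ B, ∃ pq : Fin v × Fin v, D.block B = {pq.1, pq.2} := by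
    intro B
    obtain ⟨x, y, h⟩ := Multiset.card_eq_two.1 (D.card_block B)
    exact ⟨(x, y), h⟩
  choose f hf using this
  exact ⟨fun B => (f B).1, fun B => (f B).2, hf⟩

end Design

/-- the minimum of the quadratic form on the vectors of sum zero is attained at an eigenvector -/
lemma exists_eigen {v : ℕ} (C : Matrix (Fin v) (Fin v) ℝ) (hC : C.IsSymm)
    (h1 : C *ᵥ (fun _ => 1) = 0) (hpos : ∀ y, 0 ≤ y ⬝ᵥ (C *ᵥ y)) (x : Fin v → ℝ) (hx0 : x ≠ 0)
    (hx : ∑ i, x i = 0) (c : ℝ) (hq : x ⬝ᵥ (C *ᵥ x) ≤ c * (x ⬝ᵥ x)) :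
    ∃ t ≤ c, ∃ y : Fin v → ℝ, y ≠ 0 ∧ ∑ i, y i = 0 ∧ C *ᵥ y = t • y := by
  let T : EuclideanSpace ℝ (Fin v) →ₗ[ℝ] EuclideanSpace ℝ (Fin v) := Matrix.toEuclideanLin C
  have hT : T.IsSymmetric := by
    rw [Matrix.isSymmetric_toEuclideanLin_iff]
    show Cᴴ = C
    rw [Matrix.conjTranspose_eq_transpose_of_trivial]
    exact hC
  let V : Submodule ℝ (EuclideanSpace ℝ (Fin v)) :=
    { carrier := {y | ∑ i, y i = 0}
      add_mem' := by
        intro a b ha hb
        simp only [Set.mem_ofPred_eq] at ha hb ⊢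
        simp [Finset.sum_add_distrib, ha, hb]
      zero_mem' := by simp
      smul_mem' := by
        intro r a ha
        simp only [Set.mem_ofPred_eq] at ha ⊢
        simp [← Finset.mul_sum, ha] }
  have hsum : ∀ y : Fin v → ℝ, ∑ i, (C *ᵥ y) i = 0 := by
    intro y
    have : ∑ i, (C *ᵥ y) i = (fun _ => 1) ⬝ᵥ (C *ᵥ y) := by simp [dotProduct]
    rw [this, Matrix.dotProduct_mulVec, ← Matrix.mulVec_transpose, hC, h1, zero_dotProduct]
  have hV : ∀ y ∈ V, T y ∈ V := by
    intro y _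
    exact hsum y.ofLp
  have hTV := hT.restrict_invariant hV
  let X : V := ⟨WithLp.toLp 2 x, hx⟩
  have hX0 : X ≠ 0 := by
    intro h
    apply hx0
    have := congrArg (fun z : V => (z : EuclideanSpace ℝ (Fin v)).ofLp) h
    exact this
  have : Nontrivial V := ⟨⟨X, 0, hX0⟩⟩
  have hinner : ∀ y : V, inner ℝ (T.restrict hV y) y =
      (y : EuclideanSpace ℝ (Fin v)).ofLp ⬝ᵥ (C *ᵥ (y : EuclideanSpace ℝ (Fin v)).ofLp) := by
    intro y
    show ∑ i, inner ℝ ((C *ᵥ (y : EuclideanSpace ℝ (Fin v)).ofLp) i)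
      ((y : EuclideanSpace ℝ (Fin v)) i) = _
    simp [dotProduct, mul_comm]
  have hnorm : ‖X‖ ^ 2 = x ⬝ᵥ x := by
    rw [show ‖X‖ = ‖(WithLp.toLp 2 x : EuclideanSpace ℝ (Fin v))‖ from rfl,
      EuclideanSpace.norm_sq_eq]
    simp [dotProduct, sq]
  have hev := hTV.hasEigenvalue_iInf_of_finiteDimensional
  set t : ℝ := (⨅ x : { x : V // x ≠ 0 }, RCLike.re (inner ℝ (T.restrict hV x) (x : V)) /
    ‖(x : V)‖ ^ 2 : ℝ) with ht
  have htc : t ≤ c := by
    have hb : BddBelow (Set.range fun x : { x : V // x ≠ 0 } =>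
        (RCLike.re (inner ℝ (T.restrict hV x) (x : V)) / ‖(x : V)‖ ^ 2 : ℝ)) := by
      refine ⟨0, ?_⟩
      rintro _ ⟨y, rfl⟩
      simp only [RCLike.re_to_real]
      rw [hinner]
      exact div_nonneg (hpos _) (sq_nonneg _)
    refine le_trans (ciInf_le hb ⟨X, hX0⟩) ?_
    simp only [RCLike.re_to_real]
    rw [hinner, hnorm]
    have hxx : 0 < x ⬝ᵥ x := by
      rw [← hnorm]
      have := norm_pos_iff.2 hX0
      positivity
    rw [div_le_iff₀ hxx]
    exact hq
  obtain ⟨y, hy⟩ := hev.exists_hasEigenvector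
  refine ⟨t, htc, (y : EuclideanSpace ℝ (Fin v)).ofLp, ?_, y.2, ?_⟩
  · intro h
    apply hy.2
    apply Subtype.ext
    apply WithLp.ofLp_injective
    exact h
  · have h2 := hy.apply_eq_smul
    have h3 := congrArg (fun z : V => (z : EuclideanSpace ℝ (Fin v)).ofLp) h2
    exact h3

/-- half the sum of squared differences along the blocks, for suitable test vectors -/
lemma exists_test (p q : Fin 8 → Fin 6) : ∃ x : Fin 6 → ℝ, x ≠ 0 ∧ ∑ i, x i = 0 ∧
    ∑ B, (x (p B) - x (q B)) ^ 2 / 2 ≤ 1 * (x ⬝ᵥ x) := by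
  classical
  -- blocks with exactly one end at `u`
  let E : Fin 6 → Finset (Fin 8) := fun u =>
    Finset.univ.filter fun B => (p B = u ∧ q B ≠ u) ∨ (q B = u ∧ p B ≠ u)
  have hE : ∑ u, (E u).card ≤ 16 := by
    have h1 : ∀ u, (E u).card ≤ ∑ B, ((if p B = u then 1 else 0) + (if q B = u then 1 else 0)) := by
      intro u
      rw [Finset.card_filter]
      refine Finset.sum_le_sum fun B _ => ?_
      split_ifs <;> simp_all
    refine le_trans (Finset.sum_le_sum fun u _ => h1 u) ?_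
    rw [Finset.sum_comm]
    simp [Finset.sum_add_distrib]
  obtain ⟨u, hu⟩ : ∃ u, (E u).card ≤ 2 := by
    by_contra hn
    push Not at hn
    have : ∑ u : Fin 6, 3 ≤ ∑ u, (E u).card := Finset.sum_le_sum fun u _ => hn u
    simp at this
    omega
  -- the neighbours of `u`
  let Nb : Finset (Fin 6) := (E u).image fun B => if p B = u then q B else p B
  have hNb : Nb.card ≤ 2 := le_trans Finset.card_image_le hu
  have huN : u ∉ Nb := by
    intro h
    obtain ⟨B, hB, hB2⟩ := Finset.mem_image.1 h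
    have hB' := (Finset.mem_filter.1 hB).2
    by_cases hp : p B = u
    · rw [if_pos hp] at hB2
      rcases hB' with h | h
      · exact h.2 hB2
      · exact h.2 hp
    · rw [if_neg hp] at hB2
      exact hp hB2
  obtain ⟨W, hNW, hWu, hWc⟩ : ∃ W : Finset (Fin 6), Nb ⊆ W ∧ W ⊆ Finset.univ.erase u ∧
      W.card = 2 := by
    refine Finset.exists_subsuperset_card_eq ?_ hNb ?_
    · intro i hi
      exact Finset.mem_erase.2 ⟨fun h => huN (h ▸ hi), Finset.mem_univ _⟩
    · rw [Finset.card_erase_of_mem (Finset.mem_univ _)]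
      simp
  have huW : u ∉ W := fun h => (Finset.mem_erase.1 (hWu h)).1 rfl
  let x : Fin 6 → ℝ := fun i => if i = u then 3 else if i ∈ W then 0 else -1
  have hxu : x u = 3 := by simp [x]
  have hxW : ∀ i ∈ W, x i = 0 := by
    intro i hi
    have : i ≠ u := fun h => huW (h ▸ hi)
    simp [x, this, hi]
  have hxo : ∀ i, i ≠ u → x i = 0 ∨ x i = -1 := by
    intro i hi
    by_cases h : i ∈ W
    · left; exact hxW i h
    · right; simp [x, hi, h]
  have hcount : ∀ f : ℝ → ℝ, ∑ i, f (x i) = f 3 + 2 * f 0 + 3 * f (-1) := by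
    intro f
    have h1 : ∑ i, f (x i) = f (x u) + ∑ i ∈ Finset.univ.erase u, f (x i) :=
      (Finset.add_sum_erase _ _ (Finset.mem_univ u)).symm
    have h2 : ∑ i ∈ Finset.univ.erase u, f (x i) =
        ∑ i ∈ Finset.univ.erase u \ W, f (x i) + ∑ i ∈ W, f (x i) :=
      (Finset.sum_sdiff hWu).symm
    have h3 : ∑ i ∈ W, f (x i) = ∑ i ∈ W, f 0 :=
      Finset.sum_congr rfl fun i hi => by rw [hxW i hi]
    have h4 : ∑ i ∈ Finset.univ.erase u \ W, f (x i) =
        ∑ i ∈ Finset.univ.erase u \ W, f (-1) := by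
      refine Finset.sum_congr rfl fun i hi => ?_
      obtain ⟨hi1, hi2⟩ := Finset.mem_sdiff.1 hi
      have : i ≠ u := (Finset.mem_erase.1 hi1).1
      simp [x, this, hi2]
    rw [h1, h2, h3, h4, hxu, Finset.sum_const, Finset.sum_const, hWc,
      Finset.card_sdiff_of_subset hWu, hWc, Finset.card_erase_of_mem (Finset.mem_univ _)]
    simp
    ring
  refine ⟨x, ?_, ?_, ?_⟩
  · intro h
    have := congrFun h u
    rw [hxu] at this
    simp at this
  · have := hcount id
    simp only [id] at this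
    rw [this]; norm_num
  · have hxx : x ⬝ᵥ x = 12 := by
      have := hcount fun t => t * t
      simp only [dotProduct]
      rw [this]; norm_num
    rw [hxx]
    have hb : ∀ B, (x (p B) - x (q B)) ^ 2 / 2 ≤ 1 / 2 + if B ∈ E u then 4 else 0 := by
      intro B
      by_cases hB : B ∈ E u
      · rw [if_pos hB]
        have hm : (if p B = u then q B else p B) ∈ W :=
          hNW (Finset.mem_image.2 ⟨B, hB, rfl⟩)
        by_cases hp : p B = u
        · rw [if_pos hp] at hm
          rw [hp, hxu, hxW _ hm]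
          norm_num
        · rw [if_neg hp] at hm
          have hq : q B = u := by
            rcases (Finset.mem_filter.1 hB).2 with h | h
            · exact absurd h.1 hp
            · exact h.1
          rw [hq, hxu, hxW _ hm]
          norm_num
      · rw [if_neg hB]
        by_cases hp : p B = u
        · have hq : q B = u := by
            by_contra hq
            exact hB (Finset.mem_filter.2 ⟨Finset.mem_univ _, Or.inl ⟨hp, hq⟩⟩)
          rw [hp, hq]
          norm_num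
        · have hq : q B ≠ u := by
            intro hq
            exact hB (Finset.mem_filter.2 ⟨Finset.mem_univ _, Or.inr ⟨hq, hp⟩⟩)
          rcases hxo _ hp with h1 | h1 <;> rcases hxo _ hq with h2 | h2 <;> rw [h1, h2] <;>
            norm_num
    refine le_trans (Finset.sum_le_sum fun B _ => hb B) ?_
    rw [Finset.sum_add_distrib, Finset.sum_ite_mem]
    simp
    have : ((E u).card : ℝ) ≤ 2 := by exact_mod_cast hu
    linarith

lemma info_one {v b k : ℕ} (hk : k ≠ 0) (D : Design v b k) : D.info *ᵥ (fun _ => 1) = 0 := by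
  have h1 : D.incᵀ *ᵥ (fun _ => 1) = fun _ => (k : ℝ) := by
    funext B
    simp only [Matrix.mulVec, dotProduct, Matrix.transpose_apply, Design.inc, Matrix.of_apply,
      mul_one, Design.mult]
    rw [← Nat.cast_sum, Multiset.sum_count_eq_card (fun a _ => Finset.mem_univ a), D.card_block]
  have hk' : (k : ℝ) ≠ 0 := by exact_mod_cast hk
  have h2 : Matrix.diagonal (fun i => (D.repl i : ℝ)) *ᵥ (fun _ => 1) =
      fun i => (D.repl i : ℝ) := by
    funext i
    rw [Matrix.mulVec_diagonal, mul_one]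
  rw [Design.info, Matrix.sub_mulVec, Matrix.smul_mulVec, ← Matrix.mulVec_mulVec, h1, h2]
  funext i
  simp only [Pi.sub_apply, Pi.smul_apply, smul_eq_mul, Matrix.mulVec,
    dotProduct, Design.inc, Matrix.of_apply, Pi.zero_apply, Design.repl]
  rw [← Finset.sum_mul, mul_comm _ (k : ℝ), inv_mul_cancel_left₀ hk']
  push_cast
  ring

lemma theta1_le (D : Design 6 8 2) : D.theta1 ≤ 1 := by
  obtain ⟨p, q, hpq⟩ := D.exists_pq
  have hquad := D.quad_two p q hpq
  have hpos : ∀ y, 0 ≤ y ⬝ᵥ (D.info *ᵥ y) := by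
    intro y
    rw [hquad]
    exact Finset.sum_nonneg fun B _ => by positivity
  obtain ⟨x, hx0, hxs, hxq⟩ := exists_test p q
  obtain ⟨t, ht, y, hy0, hys, hy⟩ := exists_eigen D.info D.info_symm (info_one (by norm_num) D)
    hpos x hx0 hxs 1 (by rw [hquad]; exact hxq)
  refine le_trans (csInf_le ⟨0, ?_⟩ ⟨y, hy0, hys, hy⟩) ht
  rintro s ⟨z, hz0, hzs, hz⟩
  have h1 := hpos z
  rw [hz, dotProduct_smul, smul_eq_mul] at h1
  have h2 : 0 < z ⬝ᵥ z := by
    have h3 : 0 ≤ z ⬝ᵥ z := Finset.sum_nonneg fun i _ => mul_self_nonneg _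
    refine lt_of_le_of_ne h3 fun h => hz0 ?_
    exact dotProduct_self_eq_zero.1 h.symm
  exact nonneg_of_mul_nonneg_left h1 h2

/-- the design whose concurrence graph is the complete bipartite graph `K_{2,4}` -/
def K24 : Design 6 8 2 where
  block := ![{0, 2}, {0, 3}, {0, 4}, {0, 5}, {1, 2}, {1, 3}, {1, 4}, {1, 5}]
  card_block := by decide

lemma K24_quad (x : Fin 6 → ℝ) : x ⬝ᵥ (K24.info *ᵥ x) =
    ((x 0 - x 2) ^ 2 + (x 0 - x 3) ^ 2 + (x 0 - x 4) ^ 2 + (x 0 - x 5) ^ 2 + (x 1 - x 2) ^ 2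
      + (x 1 - x 3) ^ 2 + (x 1 - x 4) ^ 2 + (x 1 - x 5) ^ 2) / 2 := by
  rw [K24.quad_two ![0, 0, 0, 0, 1, 1, 1, 1] ![2, 3, 4, 5, 2, 3, 4, 5] (by decide)]
  simp only [Fin.sum_univ_eight]
  simp
  ring

lemma info_apply {v b k : ℕ} (D : Design v b k) (i j : Fin v) :
    D.info i j = (if i = j then (D.repl i : ℝ) else 0) -
      (k : ℝ)⁻¹ * ((∑ B, D.mult i B * D.mult j B : ℕ) : ℝ) := by
  unfold Design.info
  rw [Matrix.sub_apply, Matrix.diagonal_apply, Matrix.smul_apply, Matrix.mul_apply]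
  simp only [Design.inc, Matrix.transpose_apply, Matrix.of_apply, smul_eq_mul]
  push_cast
  rfl

noncomputable def M24 : Matrix (Fin 6) (Fin 6) ℝ :=
  !![2, 0, -1/2, -1/2, -1/2, -1/2;
     0, 2, -1/2, -1/2, -1/2, -1/2;
     -1/2, -1/2, 1, 0, 0, 0;
     -1/2, -1/2, 0, 1, 0, 0;
     -1/2, -1/2, 0, 0, 1, 0;
     -1/2, -1/2, 0, 0, 0, 1]

def S24 : Matrix (Fin 6) (Fin 6) ℕ :=
  !![4, 0, 1, 1, 1, 1;
     0, 4, 1, 1, 1, 1;
     1, 1, 2, 0, 0, 0;
     1, 1, 0, 2, 0, 0;
     1, 1, 0, 0, 2, 0;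
     1, 1, 0, 0, 0, 2]

lemma K24_S : ∀ i j : Fin 6, ∑ B, K24.mult i B * K24.mult j B = S24 i j := by
  decide

lemma K24_r : ∀ i : Fin 6, K24.repl i = ![4, 4, 2, 2, 2, 2] i := by
  decide

lemma K24_info : K24.info = M24 := by
  ext i j
  rw [info_apply, K24_S, K24_r]
  fin_cases i <;> fin_cases j <;> simp [S24, M24] <;> norm_num

lemma K24_conn : K24.Connected := by
  have hadj : ∀ i j : Fin 6, i ≠ j → 0 < K24.conc i j → K24.concGraph.Reachable i j := by
    intro i j h1 h2
    apply SimpleGraph.Adj.reachable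
    rw [Design.concGraph, SimpleGraph.fromRel_adj]
    exact ⟨h1, Or.inl h2⟩
  have h0 : ∀ j : Fin 6, K24.concGraph.Reachable 0 j := by
    intro j
    fin_cases j
    · exact SimpleGraph.Reachable.refl _
    · exact (hadj 0 2 (by decide) (by decide)).trans (hadj 2 1 (by decide) (by decide))
    · exact hadj 0 2 (by decide) (by decide)
    · exact hadj 0 3 (by decide) (by decide)
    · exact hadj 0 4 (by decide) (by decide)
    · exact hadj 0 5 (by decide) (by decide)
  unfold Design.Connected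
  rw [SimpleGraph.connected_iff]
  exact ⟨fun i j => (h0 i).symm.trans (h0 j), ⟨0⟩⟩

lemma K24_theta : 1 ≤ K24.theta1 := by
  refine le_csInf ?_ ?_
  · refine ⟨1, ![0, 0, 1, -1, 0, 0], ?_, ?_, ?_⟩
    · intro h
      have := congrFun h 2
      simp at this
    · simp [Fin.sum_univ_six]
    · rw [K24_info]
      ext i
      fin_cases i <;> simp [M24, Matrix.mulVec, dotProduct, Fin.sum_univ_six] <;> norm_num
  · rintro t ⟨x, hx0, hxs, hx⟩
    have h1 := K24_quad x
    rw [hx, dotProduct_smul, smul_eq_mul] at h1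
    have h2 : x ⬝ᵥ x = x 0 ^ 2 + x 1 ^ 2 + x 2 ^ 2 + x 3 ^ 2 + x 4 ^ 2 + x 5 ^ 2 := by
      simp only [dotProduct, Fin.sum_univ_six]
      ring
    have h3 : 0 < x ⬝ᵥ x := by
      have h3 : 0 ≤ x ⬝ᵥ x := Finset.sum_nonneg fun i _ => mul_self_nonneg _
      exact lt_of_le_of_ne h3 fun h => hx0 (dotProduct_self_eq_zero.1 h.symm)
    rw [Fin.sum_univ_six] at hxs
    have h4 : x 2 + x 3 + x 4 + x 5 = -(x 0 + x 1) := by linarith
    have h5 : x ⬝ᵥ x ≤ t * (x ⬝ᵥ x) := by
      rw [h1, h2]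
      nlinarith [sq_nonneg (x 0 + x 1), sq_nonneg (x 0), sq_nonneg (x 1),
        congrArg (fun s => (x 0 + x 1) * s) h4]
    by_contra hlt
    push Not at hlt
    nlinarith

lemma pair_eq (C G : Matrix (Fin 6) (Fin 6) ℝ) (hC : C.IsSymm) (h : C * G * C = C)
    (i j : Fin 6) (x : Fin 6 → ℝ) (hx : C *ᵥ x = Pi.single i 1 - Pi.single j 1) :
    Design.pairVar G i j = x i - x j := by
  unfold Design.pairVar
  rw [← hx]
  have h1 : (C *ᵥ x) ⬝ᵥ (G *ᵥ (C *ᵥ x)) = x ⬝ᵥ ((C * G * C) *ᵥ x) := by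
    have : C *ᵥ x = x ᵥ* C := by
      rw [← Matrix.mulVec_transpose, hC]
    conv_lhs => rw [this]
    rw [← Matrix.dotProduct_mulVec, ← this, Matrix.mulVec_mulVec, Matrix.mulVec_mulVec]

  rw [h1, h, hx, dotProduct_sub, dotProduct_single, dotProduct_single, mul_one, mul_one]

theorem result : ∃ D : Design 6 8 2, D.EOptimal ∧ D.conc 0 1 < D.conc 0 2 ∧
    (∃ G : Matrix (Fin 6) (Fin 6) ℝ, D.info * G * D.info = D.info) ∧
    ∀ G : Matrix (Fin 6) (Fin 6) ℝ, D.info * G * D.info = D.info →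
      Design.pairVar G 0 1 < Design.pairVar G 0 2 := by
  refine ⟨K24, ⟨K24_conn, fun D' _ => (theta1_le D').trans K24_theta⟩, by decide, ?_, ?_⟩
  · refine ⟨!![0, 0, 0, 0, 0, 0;
      0, 1, 1/2, 1/2, 1/2, 1/2;
      0, 1/2, 5/4, 1/4, 1/4, 1/4;
      0, 1/2, 1/4, 5/4, 1/4, 1/4;
      0, 1/2, 1/4, 1/4, 5/4, 1/4;
      0, 1/2, 1/4, 1/4, 1/4, 5/4], ?_⟩
    rw [K24_info]
    ext i j
    fin_cases i <;> fin_cases j <;>
      simp [M24, Matrix.mul_apply, Fin.sum_univ_six] <;> norm_num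
  · intro G hG
    rw [pair_eq _ G K24.info_symm hG 0 1 ![0, -1, -1/2, -1/2, -1/2, -1/2],
      pair_eq _ G K24.info_symm hG 0 2 ![0, -1/2, -5/4, -1/4, -1/4, -1/4]]
    · simp; norm_num
    · rw [K24_info]
      ext i
      fin_cases i <;> simp [M24, Matrix.mulVec, dotProduct, Fin.sum_univ_six, Pi.single_apply] <;>
        norm_num
    · rw [K24_info]
      ext i
      fin_cases i <;> simp [M24, Matrix.mulVec, dotProduct, Fin.sum_univ_six, Pi.single_apply] <;>
        norm_num

end Pool.Agent.Results.MP_c32163_co.EOptimalFails
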